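import Pool.Agent.Lib.MP_ac5134_an.AddQ3

/-!
The `L^p` Kakeya inequality and the volume inequality for families of tubes whose directions and
positions have additive structure, in every dimension `n = d + 1 ≥ 2`.
-/

namespace Pool.Agent.Results.MP_ac5134_an.AddFamilies

open Pool.Agent.MPac5134 MeasureTheory
open scoped ENNReal

theorem result (d : ℕ) (hd : 1 ≤ d) (K : ℕ) (B κ ε : ℝ) (hB : 1 ≤ B) (hκ : 0 < κ) (hε : 0 < ε) :
    ∃ C : ℝ, 0 < C ∧ ∀ N : ℝ, 1 ≤ N → ∀ (ι : Type) [Fintype ι] (θ : ι → Cap d) (c : ι → Sp d),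
      IsCapFamily K κ N θ →
      (ManyQuadruples (B * (1 + Real.log N) ^ ((1 : ℝ) / 2000)) (labels N θ c) ∨
        SmallDoubling (B * (1 + Real.log N) ^ ((1 : ℝ) / 2000)) (N ^ d) (labels N θ c)) →
      ∃ S : Finset ι,
        (SmallDoubling (B * (1 + Real.log N) ^ ((1 : ℝ) / 2000)) (N ^ d) (labels N θ c) →
          S = Finset.univ) ∧
        (Fintype.card ι : ℝ) ≤ C * (1 + Real.log N) * S.card ∧
        (∀ p : ℝ≥0∞, 1 ≤ p → eLpNorm (multOn S N θ c) p volume ≤
          ENNReal.ofReal (C * N ^ ε) * eLpNorm (mult N θ (fun _ => 0)) p volume) ∧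
        ∑ i, volume (tube N (θ i) (c i)) ≤
          ENNReal.ofReal (C * N ^ ε) * volume (⋃ i ∈ S, tube N (θ i) (c i)) :=
  additive_families hd K hB hκ hε

end Pool.Agent.Results.MP_ac5134_an.AddFamilies
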