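import Pool.Agent.Lib.MP_ac5134_an.FlagRatio
import Pool.Agent.Lib.MP_ac5134_an.FlagUnion
import Pool.Agent.Lib.MP_ac5134_an.Norms

/-!
The `L^p` Kakeya inequality for flag-sorted translates, in every dimension `n = m + 2` and for
every `p`, with a loss that depends only on the number of flags of hyperplanes.
-/

namespace Pool.Agent.Results.MP_ac5134_an.FlagSorted

open Pool.Agent.MPac5134 MeasureTheory
open scoped ENNReal

theorem result (m K : ℕ) (κ A : ℝ) (hκ : 0 < κ) (hA : 0 ≤ A) :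
    ∃ C : ℝ, 0 < C ∧ ∀ N Q : ℝ, 1 ≤ N → 1 ≤ Q → ∀ (ι : Type) [Fintype ι]
      (θ : ι → Cap (m + 1)) (c : ι → Sp (m + 1)),
      IsCapFamily K κ N θ → FlagSorted A Q N θ c →
      (∀ p : ℝ≥0∞, 1 ≤ p →
        eLpNorm (mult N θ c) p volume ≤
          ENNReal.ofReal (C * (Q ^ ((m : ℝ) / (m + 1)) * (1 + Real.log N)) ^
            min (((m : ℝ) + 1) * (1 - 1 / p.toReal)) (1 / p.toReal)) *
          eLpNorm (mult N θ (fun _ => 0)) p volume) ∧
      (∀ p : ℝ≥0∞, p = 1 + 1 / (m + 1) →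
        eLpNorm (mult N θ c) p volume ≤
          ENNReal.ofReal (C * Q ^ ((m : ℝ) / (m + 2))) *
          eLpNorm (mult N θ (fun _ => 0)) p volume) ∧
      ∑ i, volume (tube N (θ i) (c i)) ≤
        ENNReal.ofReal (C * Q ^ m * (1 + Real.log N) ^ (m + 1)) *
          volume (⋃ i, tube N (θ i) (c i)) := by
  classical
  set d : ℕ := m + 1 with hd
  have hd0 : 0 < d := Nat.succ_pos m
  have hdR : (d : ℝ) = m + 1 := by rw [hd]; push_cast; rfl
  have hm0 : (0:ℝ) ≤ m := Nat.cast_nonneg m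
  have hd' : (0:ℝ) < d := by exact_mod_cast hd0
  set κ' : ℝ := min κ 1 with hκ'
  have hκ'0 : 0 < κ' := lt_min hκ one_pos
  have hκ'1 : κ' ≤ 1 := min_le_right _ _
  have hF : 0 < flagConst d (A + 3 * (m + 1) / 2) := flagConst_pos d (by positivity)
  set C1 : ℝ := flagConst d (A + 3 * (m + 1) / 2) * K * (1 + 1 / κ') with hC1
  have hC1nn : 0 ≤ C1 := by positivity
  set Ca : ℝ := (1 + C1) * (2 / (κ' / (2 * (2 * ((d:ℝ) + 1)) ^ (d + 1)))) with hCa
  set Cb : ℝ := C1 * ((d:ℝ) + 1) ^ (d + 1) * κ'⁻¹ with hCb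
  set Cc : ℝ := 3 * ((d:ℝ) + 1) ^ (d + 2) + C1 * (1 + (d + 5 : ℕ) * 2 ^ (d + 5)) *
        (K * 5 ^ d) * (4 / κ') * (4 ^ (d + 2) / κ') with hCc
  set Cd : ℝ := 2 * (2 * (1 + C1)) ^ d with hCd
  have hCa0 : 0 ≤ Ca := by positivity
  have hCb0 : 0 ≤ Cb := by positivity
  have hCc0 : 0 ≤ Cc := by positivity
  have hCd0 : 0 ≤ Cd := by positivity
  obtain ⟨CC, hCC⟩ : ∃ CC : ℝ, CC = 1 + Ca + Cb + Cc + Cd := ⟨_, rfl⟩
  have hCC0 : 0 < CC := by rw [hCC]; positivity
  refine ⟨CC, hCC0, ?_⟩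
  intro N Q hN hQ ι _ θ c hfam hfs
  have hN0 : 0 < N := by linarith
  have hQ0 : 0 < Q := by linarith
  have hlogN : 0 ≤ Real.log N := Real.log_nonneg hN
  have hfam' : IsCapFamily K κ' N θ :=
    ⟨hfam.overlap, le_trans (by
      have : κ' ≤ κ := min_le_left _ _
      gcongr) hfam.many⟩
  set Q' : ℝ := Q ^ ((m : ℝ) / (m + 1)) with hQ'
  have hQ'1 : 1 ≤ Q' := Real.one_le_rpow hQ (by positivity)
  set L : ℝ := Q' * (1 + Real.log N) with hL
  have hL1 : 1 ≤ L := by nlinarith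
  have hL0 : 0 < L := by linarith
  have hcrit0 := flagSorted_critical hN hA hQ0 hκ'0 θ c hfam' hfs
  have hcrit : ∫⁻ x, ENNReal.ofReal ((mult N θ c x) ^ (1 + 1 / (d:ℝ))) ≤
      ENNReal.ofReal (C1 * (Q' * (1 + Real.log N)) * (Fintype.card ι * N ^ (d + 2))) := by
    refine hcrit0.trans (le_of_eq ?_)
    congr 1
    rw [hC1, hQ']
    ring
  have hdE0 : ((m : ℝ≥0∞) + 1) ≠ 0 := by simp
  have hdEt : (1 + 1 / ((m : ℝ≥0∞) + 1)) ≠ ⊤ := by simp
  have hdEr : (1 + 1 / ((m : ℝ≥0∞) + 1)).toReal = 1 + 1 / (d:ℝ) := by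
    rw [ENNReal.toReal_add ENNReal.one_ne_top (by simp), ENNReal.toReal_div, hdR,
      ENNReal.toReal_add (by simp) (by simp)]
    simp
  -- exponents below the critical one
  have hlowp : ∀ p : ℝ≥0∞, 1 ≤ p → p ≠ ⊤ → p.toReal ≤ 1 + 1 / (d:ℝ) →
      eLpNorm (mult N θ c) p volume ≤
        ENNReal.ofReal ((1 + Ca) * L ^ (((m : ℝ) + 1) * (1 - 1 / p.toReal))) *
          eLpNorm (mult N θ (fun _ => 0)) p volume := by
    intro p hp1 hpt hr2
    have hr1 : 1 ≤ p.toReal := by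
      have := ENNReal.toReal_mono hpt hp1
      simpa using this
    have h2 := ratio_of_crit_low hd0 hN hκ'0 hκ'1 hC1nn hL1 θ c hfam'.many hcrit hr1 hr2
    rw [← hCa] at h2
    have h3 := norm_of_ratio (N := N) (C := 1 + Ca) (a := d * (p.toReal - 1)) (by linarith)
      (mul_nonneg hd'.le (by linarith)) θ c hL1 hp1 hpt (h2.trans (by
        gcongr
        linarith))
    have e1 : (d : ℝ) * (p.toReal - 1) / p.toReal = ((m : ℝ) + 1) * (1 - 1 / p.toReal) := by
      have : p.toReal ≠ 0 := by linarith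
      rw [hdR]
      field_simp
    rw [e1] at h3
    exact h3
  -- exponents above the critical one
  have hhighp : ∀ p : ℝ≥0∞, 1 ≤ p → p ≠ ⊤ → 1 + 1 / (d:ℝ) ≤ p.toReal →
      eLpNorm (mult N θ c) p volume ≤
        ENNReal.ofReal ((1 + Cb) * L ^ (1 / p.toReal)) *
          eLpNorm (mult N θ (fun _ => 0)) p volume := by
    intro p hp1 hpt hr2
    have h2 := ratio_of_crit_high hd0 hN hκ'0 hκ'1 hC1nn hL1 θ c hfam'.many hcrit hr2
    rw [← hCb] at h2
    exact norm_of_ratio (N := N) (C := 1 + Cb) (a := 1) (by linarith)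
      zero_le_one θ c hL1 hp1 hpt (h2.trans (by
        rw [Real.rpow_one]
        gcongr
        linarith))
  refine ⟨?_, ?_, ?_⟩
  · intro p hp1
    by_cases hpt : p = ⊤
    · subst hpt
      have e1 : min (((m : ℝ) + 1) * (1 - 1 / (⊤ : ℝ≥0∞).toReal))
          (1 / (⊤ : ℝ≥0∞).toReal) = 0 := by
        rw [ENNReal.toReal_top]
        simp only [div_zero, sub_zero, mul_one]
        exact min_eq_right (by positivity)
      rw [e1, Real.rpow_zero, mul_one]
      refine (eLpNorm_top_le N θ c).trans ((eLpNorm_top_ge hN θ).trans ?_)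
      calc _ = 1 * eLpNorm (mult N θ (fun _ => 0)) ⊤ volume := (one_mul _).symm
        _ ≤ _ := by
          gcongr
          rw [← ENNReal.ofReal_one]
          exact ENNReal.ofReal_le_ofReal (by linarith)
    have hr1 : 1 ≤ p.toReal := by
      have := ENNReal.toReal_mono hpt hp1
      simpa using this
    have hr0 : 0 < p.toReal := by linarith
    rcases le_total p.toReal (1 + 1 / (d:ℝ)) with hp | hp
    · have e1 : min (((m : ℝ) + 1) * (1 - 1 / p.toReal)) (1 / p.toReal) =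
          ((m : ℝ) + 1) * (1 - 1 / p.toReal) := by
        apply min_eq_left
        rw [← hdR, one_sub_div hr0.ne', mul_div_assoc', div_le_div_iff_of_pos_right hr0]
        have : p.toReal - 1 ≤ 1 / (d:ℝ) := by linarith
        rw [le_div_iff₀ hd'] at this
        linarith
      rw [e1]
      refine (hlowp p hp1 hpt hp).trans ?_
      gcongr
      linarith
    · have e1 : min (((m : ℝ) + 1) * (1 - 1 / p.toReal)) (1 / p.toReal) = 1 / p.toReal := by
        apply min_eq_right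
        rw [← hdR, one_sub_div hr0.ne', mul_div_assoc', div_le_div_iff_of_pos_right hr0]
        have : 1 / (d:ℝ) ≤ p.toReal - 1 := by linarith
        rw [div_le_iff₀ hd'] at this
        linarith
      rw [e1]
      refine (hhighp p hp1 hpt hp).trans ?_
      gcongr
      linarith
  · intro p hp
    have hpt : p ≠ ⊤ := by rw [hp]; exact hdEt
    have hr : p.toReal = 1 + 1 / (d:ℝ) := by rw [hp]; exact hdEr
    have hp1 : 1 ≤ p := by rw [hp]; exact le_self_add
    have h2 := ratio_of_crit_log hd0 hN hκ'0 hκ'1 hC1nn hQ'1 θ c hfam' hcrit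
    rw [← hCc, ← hr] at h2
    have h3 := norm_of_ratio (N := N) (C := 1 + Cc) (a := 1) (by linarith)
      zero_le_one θ c hQ'1 hp1 hpt (h2.trans (by
        rw [Real.rpow_one]
        gcongr
        linarith))
    have e1 : Q' ^ (1 / p.toReal) = Q ^ ((m : ℝ) / (m + 2)) := by
      rw [hQ', ← Real.rpow_mul hQ0.le, hr, hdR]
      congr 1
      field_simp
      ring
    rw [e1] at h3
    refine h3.trans ?_
    gcongr
    linarith
  · have hB : 1 ≤ (1 + C1) * L := by nlinarith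
    have hcrit2 : ∫⁻ x, ENNReal.ofReal ((mult N θ c x) ^ (1 + 1 / (d:ℝ))) ≤
        ENNReal.ofReal ((1 + C1) * L * (Fintype.card ι * N ^ (d + 2))) := by
      refine hcrit.trans ?_
      rw [← hL]
      gcongr
      linarith
    refine (union_of_crit hd0 hN hB θ c hcrit2).trans ?_
    refine mul_le_mul' (ENNReal.ofReal_le_ofReal ?_) le_rfl
    have e1 : Q' ^ d = Q ^ m := by
      rw [hQ', ← Real.rpow_natCast, ← Real.rpow_mul hQ0.le, hdR, div_mul_cancel₀ _ (by positivity),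
        Real.rpow_natCast]
    calc 2 * (2 * ((1 + C1) * L)) ^ d = Cd * L ^ d := by
          rw [hCd, ← mul_assoc 2 (1 + C1) L, mul_pow, mul_assoc]
      _ = Cd * Q ^ m * (1 + Real.log N) ^ d := by rw [hL, mul_pow, e1]; ring
      _ ≤ CC * Q ^ m * (1 + Real.log N) ^ d := by
          gcongr
          linarith

end Pool.Agent.Results.MP_ac5134_an.FlagSorted
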