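import Pool.Agent.Lib.MP_ac5134_an.KH.FlexF
import Pool.Agent.Lib.MP_ac5134_an.KH.Lp
import Pool.Agent.Lib.MP_ac5134_an.KH.HC

/-!
# Thin shadings, `L^p` bounds and the Hausdorff dimension of Kakeya sets, exponent 1.67514

1. For every `n = d + 1 ≥ 2`: if a measurable set `E` contains at least the proportion `lam` of every
   tube of a family of caps with at most `K` caps in every cell (all translates), then
   `|E ∩ ⋃ T_θ| ≥ c lam^C |ι|^(1/1.67514) N^(n+1)`.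
2. Hence the `L^p` bound
   `‖∑ T_θ‖_p ≤ C (1 + log N)^4 N^((n-1)(1-1/1.67514)(1-1/p)) ‖∑ T_{θ,0}‖_p`, `1 ≤ p ≤ 1 + 1/C`.
3. Every set of `R^n` that contains a unit segment in every direction has Hausdorff dimension at
   least `1 + (n-1)/1.67514`.
-/

open MeasureTheory Pool.Agent.MPac5134 Pool.Agent.MPac5134.KH

namespace Pool.Agent.Results.MP_ac5134_an.HausdorffDimension

theorem result :
    (∀ d K : ℕ, 1 ≤ d → ∃ C : ℕ, 1 ≤ C ∧
      (∀ (N lam : ℝ), 1 ≤ N → 0 < lam → lam ≤ 1 → ∀ (ι : Type) [Fintype ι] (θ : ι → Cap d)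
        (c : ι → Sp d) (E : Set (Sp d)), MeasurableSet E →
        (∀ (z : Fin d → ℤ) (s : Finset ι), (∀ i ∈ s, cell N (θ i) = z) → s.card ≤ K) →
        (∀ i, ENNReal.ofReal lam * volume (tube N (θ i) (c i)) ≤
          volume (tube N (θ i) (c i) ∩ E)) →
        ENNReal.ofReal (lam ^ C * (Fintype.card ι : ℝ) ^ (1 / (1.67514 : ℝ)) * N ^ (d + 2)) ≤
          ENNReal.ofReal C * volume (E ∩ ⋃ i, tube N (θ i) (c i))) ∧
      (∀ (N : ℝ), 1 ≤ N → ∀ (ι : Type) [Fintype ι] (θ : ι → Cap d) (c : ι → Sp d),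
        (∀ (z : Fin d → ℤ) (s : Finset ι), (∀ i ∈ s, cell N (θ i) = z) → s.card ≤ K) →
        ∀ (p : ℝ), 1 ≤ p → p ≤ 1 + 1 / C →
        eLpNorm (mult N θ c) (ENNReal.ofReal p) volume ≤
          ENNReal.ofReal (C * (1 + Real.log N) ^ 4 *
            N ^ (d * (1 - 1 / (1.67514 : ℝ)) * (1 - 1 / p))) *
            eLpNorm (mult N θ (fun _ => 0)) (ENNReal.ofReal p) volume)) ∧
    (∀ d : ℕ, 1 ≤ d → ∀ E : Set (EuclideanSpace ℝ (Fin (d + 1))),
      (∀ v : EuclideanSpace ℝ (Fin (d + 1)), ‖v‖ = 1 →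
        ∃ x, ∀ t : ℝ, 0 ≤ t → t ≤ 1 → x + t • v ∈ E) →
      ENNReal.ofReal (1 + d / (1.67514 : ℝ)) ≤ dimH E) := by
  have h1 : (1 : ℝ) ≤ 1.67514 := by norm_num
  refine ⟨fun d K _ => ?_, fun d _ E hE => haus h1 (flex_kt d) E hE⟩
  obtain ⟨C1, hC1, H1⟩ := shade h1 (flex_kt d) K
  obtain ⟨C2, hC2, H2⟩ := lp h1 (flex_kt d) K
  refine ⟨max C1 C2, hC1.trans (le_max_left _ _), ?_, ?_⟩
  · intro N lam hN hl hl1 ι _ θ c E hE hK hT
    have hN0 : (0 : ℝ) ≤ N := by linarith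
    refine le_trans (ENNReal.ofReal_le_ofReal ?_)
      ((H1 N lam hN hl hl1 ι θ c E hE hK hT).trans ?_)
    · have h2 : lam ^ (max C1 C2) ≤ lam ^ C1 :=
        pow_le_pow_of_le_one hl.le hl1 (le_max_left _ _)
      have h3 : (0 : ℝ) ≤ (Fintype.card ι : ℝ) ^ (1 / (1.67514 : ℝ)) := by positivity
      gcongr
    · gcongr
      exact_mod_cast le_max_left _ _
  · intro N hN ι _ θ c hK p hp1 hp2
    have hN0 : (0 : ℝ) < N := by linarith
    have hC2' : (0 : ℝ) < C2 := by exact_mod_cast hC2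
    have hmax : (C2 : ℝ) ≤ ((max C1 C2 : ℕ) : ℝ) := by exact_mod_cast le_max_right _ _
    refine (H2 N hN ι θ c hK p hp1 (hp2.trans ?_)).trans ?_
    · have := one_div_le_one_div_of_le hC2' hmax
      linarith
    · have hlog : 0 ≤ Real.log N := Real.log_nonneg hN
      gcongr

end Pool.Agent.Results.MP_ac5134_an.HausdorffDimension
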