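import Pool.Agent.Lib.MP_ac5134_an.STK.KTubD

/-!
# The volume form of the Kakeya problem for families that are injective at most (scale, tube) pairs

For every `n = d + 1 ≥ 2`, every integer `B ≥ 2` and all `K`, `A ≥ 1`, `ε > 0` there are `η > 0` and `C`
such that a family of tubes `T_i` with centres `x i` over caps with at most `K` feet per cell satisfies
`∑ |T_i| ≤ C N^ε |⋃ T_i|` if all but `η m |ι|` of the pairs `(k, i)`, `k < m` (`B^m ≤ N ≤ B^(m+1)`), are
locally injective: every tube whose direction is in the same `B`-adic cell of level `k + 1` as that of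
`T_i` and whose centre is `A N² B^(-k)`-close to `x i` has its centre `A N² B^(-(k+1))`-close to `x i`.
-/

open MeasureTheory Pool.Agent.MPac5134

namespace Pool.Agent.Results.MP_ac5134_an.LocalInjVolume

open Classical in
theorem result (d B K : ℕ) (A ε : ℝ) (hd : 1 ≤ d) (hB : 2 ≤ B) (hA : 1 ≤ A) (hε : 0 < ε) :
    ∃ η C : ℝ, 0 < η ∧ ∀ (m : ℕ) (N : ℝ), (B : ℝ) ^ m ≤ N → N ≤ (B : ℝ) ^ (m + 1) →
      ∀ (ι : Type) [Fintype ι] (θ : ι → Cap d) (x : ι → Sp d),
      (∀ (z : Fin d → ℤ) (s : Finset ι), (∀ i ∈ s, cell N (θ i) = z) → s.card ≤ K) →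
      ((∑ k ∈ Finset.range m,
          (Finset.univ.filter fun i => ¬ STK.LocInj B A N θ x k i).card : ℕ) : ℝ) ≤
        η * m * Fintype.card ι →
      ∑ i, volume (tube N (θ i) (x i)) ≤
        ENNReal.ofReal (C * N ^ ε) * volume (⋃ i, tube N (θ i) (x i)) :=
  STK.inj_tubes hB hd K hA hε

end Pool.Agent.Results.MP_ac5134_an.LocalInjVolume
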