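import Pool.Agent.Lib.MP_ac5134_an.PSThm
import Pool.Agent.Lib.MP_ac5134_an.CompThm

/-!
Sharp `L^p` Kakeya inequalities for plane-sorted translates, in every dimension `n = d + 1 ≥ 2`.

Upper bounds: no loss at all for `p ≥ n/(n-1)`, and a loss of at most
`(1 + log N)^{(n-1)(1 - 1/p)}` for every `p`.

Lower bounds: for every cap family there are plane-sorted translates which compress the tubes by
the factor `(log N)^{n-1}` and for which the loss `(log N)^{(n-1)(1 - 1/p)}` does occur, for all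
`1 ≤ p < n/(n-1)`.
-/

namespace Pool.Agent.Results.MP_ac5134_an.PlaneSortedSharp

open Pool.Agent.MPac5134 MeasureTheory
open scoped ENNReal

theorem result (d : ℕ) (hd : 1 ≤ d) (K : ℕ) (κ : ℝ) (hκ : 0 < κ) :
    (∀ A : ℝ, 0 ≤ A → ∃ C : ℝ, 0 < C ∧ ∀ N : ℝ, 1 ≤ N → ∀ (ι : Type) [Fintype ι]
      (θ : ι → Cap d) (c : ι → Sp d), IsCapFamily K κ N θ → PlaneSorted A N θ c →
      (∀ p : ℝ≥0∞, 1 + 1 / (d : ℝ≥0∞) ≤ p →
        eLpNorm (mult N θ c) p volume ≤
          ENNReal.ofReal C * eLpNorm (mult N θ (fun _ => 0)) p volume) ∧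
      (∀ p : ℝ≥0∞, 1 ≤ p →
        eLpNorm (mult N θ c) p volume ≤
          ENNReal.ofReal (C * (1 + Real.log N) ^ ((d : ℝ) * (1 - 1 / p.toReal))) *
            eLpNorm (mult N θ (fun _ => 0)) p volume)) ∧
    (∀ p : ℝ, 1 ≤ p → p < 1 + 1 / (d : ℝ) → ∃ C : ℝ, 0 < C ∧ ∀ N : ℝ, 2 ≤ N →
      ∀ (ι : Type) [Fintype ι] (θ : ι → Cap d), IsCapFamily K κ N θ → ∃ c : ι → Sp d,
        PlaneSorted (4 * (d + 1)) N θ c ∧
        volume (⋃ i, tube N (θ i) (c i)) ≤
          ENNReal.ofReal (C * (1 + Real.log N) ^ (-(d : ℝ))) *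
            ∑ i, volume (tube N (θ i) (c i)) ∧
        ENNReal.ofReal ((1 + Real.log N) ^ ((d : ℝ) * (1 - 1 / p))) *
            eLpNorm (mult N θ (fun _ => 0)) (ENNReal.ofReal p) volume ≤
          ENNReal.ofReal C * eLpNorm (mult N θ c) (ENNReal.ofReal p) volume) :=
  ⟨fun A hA => planeSorted_thm d hd K κ A hκ hA,
    fun p hp1 hp2 => compression_thm d hd K κ hκ p hp1 hp2⟩

end Pool.Agent.Results.MP_ac5134_an.PlaneSortedSharp
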