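import Pool.Agent.Lib.MP_ac5134_an.Pieces

/-!
The `L^p` Kakeya inequality for tubes whose position is a smooth function of the direction (or one
of `J` smooth functions of the direction), in every dimension `n = d + 1 ≥ 2` and for every
`p ∈ [1, ∞]`.
-/

namespace Pool.Agent.Results.MP_ac5134_an.SmoothFamilies

open Pool.Agent.MPac5134 MeasureTheory
open scoped ENNReal

theorem result (d : ℕ) (hd : 1 ≤ d) (K : ℕ) (κ A : ℝ) (hκ : 0 < κ) (hA : 0 ≤ A) :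
    ∃ C : ℝ, 0 < C ∧ ∀ (J k : ℕ) (L M : ℝ), 1 ≤ J → 1 ≤ k → 0 ≤ L →
      ∀ F : Fin J → (Fin d → ℝ) → (Fin d → ℝ), (∀ j, ContDiff ℝ k (F j)) →
      (∀ j, ∀ x y : Fin d → ℝ, ∑ i, x i ^ 2 ≤ 1 → ∑ i, y i ^ 2 ≤ 1 →
        ‖F j x - F j y‖ ≤ L * ‖x - y‖) →
      (∀ j, ∀ x : Fin d → ℝ, ∑ i, x i ^ 2 ≤ 1 → ‖iteratedFDeriv ℝ k (F j) x‖ ≤ M) →
      ∀ N : ℝ, 1 ≤ N → ∀ (ι : Type) [Fintype ι] (θ : ι → Cap d) (c : ι → Sp d) (s : ι → Fin J),
      IsCapFamily K κ N θ →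
      (∀ (i : ι) (m : Fin d), |c i m.castSucc + 2 * (θ i).foot m * c i (Fin.last d) -
        N ^ 2 * F (s i) (θ i).foot m| ≤ A * N) →
      ∀ p : ℝ≥0∞, 1 ≤ p →
        eLpNorm (mult N θ c) p volume ≤
          ENNReal.ofReal (C * ((1 + L) ^ (d + 1) * (k * (1 + (M * N) ^ (1 / (k : ℝ)))) *
            (J : ℝ) ^ (1 / (d : ℝ))) ^ (min (1 / p.toReal) (d * (1 - 1 / p.toReal)))) *
            eLpNorm (mult N θ (fun _ => 0)) p volume := by
  have hd0 : 0 < d := hd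
  obtain ⟨w, hw1, hw⟩ := smooth_weak hd0 K hA
  obtain ⟨C, hC1, hC⟩ := weak_to_norm hd0 K hκ
  refine ⟨C * w, by positivity, ?_⟩
  intro J k L M hJ hk hL F hF hlip hM N hN ι _ θ c s hfam hfol p hp
  have hk' : (1:ℝ) ≤ k := by exact_mod_cast hk
  have hJ' : (1:ℝ) ≤ J := by exact_mod_cast hJ
  have hM0 : 0 ≤ M := (norm_nonneg _).trans (hM ⟨0, hJ⟩ 0 (by simp))
  have hN0 : 0 < N := by linarith
  have hlipB : ∀ j, LipB (F j) L := by
    intro j x hx y hy i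
    have h1 := hlip j x y hx hy
    have h2 := norm_le_pi_norm (F j x - F j y) i
    rw [Pi.sub_apply, Real.norm_eq_abs] at h2
    exact h2.trans h1
  set Y : ℝ := (1 + L) ^ (d + 1) * (k * (1 + (M * N) ^ (1 / (k : ℝ)))) *
    (J : ℝ) ^ (1 / (d : ℝ)) with hY
  have hY1 : 1 ≤ Y := by
    have h1 : 1 ≤ (1 + L) ^ (d + 1) := one_le_pow₀ (by linarith)
    have h2 : 0 ≤ (M * N) ^ (1 / (k : ℝ)) := by positivity
    have h3 : 1 ≤ k * (1 + (M * N) ^ (1 / (k : ℝ))) := by nlinarith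
    have h4 : 1 ≤ (J : ℝ) ^ (1 / (d : ℝ)) := Real.one_le_rpow hJ' (by positivity)
    have h5 : 1 ≤ (1 + L) ^ (d + 1) * (k * (1 + (M * N) ^ (1 / (k : ℝ)))) := by nlinarith
    nlinarith
  have hwk := hw J k L M hJ hk hL F hF hlipB hM N hN ι θ c s hfam.overlap hfol
  rw [← hY] at hwk
  have h := hC N hN ι θ c hfam (w * Y) (by nlinarith) hwk p hp
  refine h.trans ?_
  set e : ℝ := min (1 / p.toReal) (d * (1 - 1 / p.toReal)) with he
  have he1 : e ≤ 1 := by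
    by_cases hpt : p = ⊤
    · rw [he, hpt]; simp
    · have hr1 : 1 ≤ p.toReal := by
        have := ENNReal.toReal_mono hpt hp
        simpa using this
      refine (min_le_left _ _).trans ?_
      rw [div_le_one (by linarith)]; exact hr1
  have h1 : C * (w * Y) ^ e ≤ C * w * Y ^ e := by
    rw [Real.mul_rpow (by linarith) (by linarith)]
    have h2 : w ^ e ≤ w := by
      calc w ^ e ≤ w ^ (1:ℝ) := Real.rpow_le_rpow_of_exponent_le hw1 he1
        _ = w := Real.rpow_one w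
    have h3 : 0 ≤ Y ^ e := by positivity
    calc C * (w ^ e * Y ^ e) ≤ C * (w * Y ^ e) := by gcongr
      _ = _ := by ring
  gcongr

end Pool.Agent.Results.MP_ac5134_an.SmoothFamilies
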